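import Pool.Agent.helper93.VN.SpecL

/-!
# Row vn:LIB (MP_07c750_an): iteration along regular curves (adapted from row RIB of helper59)
-/

set_option autoImplicit false

open scoped MatrixGroups ContDiff Topology UpperHalfPlane ComplexConjugate ENNReal
open UpperHalfPlane MeasureTheory Filter Set

namespace Pool.Agent.VN

open Pool.Agent.RS Pool.Agent.VQ
open Pool.Agent.VQE (nm)

theorem LIB_kM {u r : ℝ} (hr : r ≤ 1) (hu : |u| ≤ r) : nm (kM u) ≤ r := by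
  have h1 : |Real.sin u| ≤ |u| := by
    have h := Real.abs_sin_sub_sin_le u 0
    rwa [Real.sin_zero, sub_zero, sub_zero] at h
  have h2 : |Real.cos u - 1| ≤ |u| := by
    have h3 := Real.one_sub_sq_div_two_le_cos (x := u)
    have h4 := Real.cos_le_one u
    have h5 : u ^ 2 = |u| * |u| := by rw [← sq, sq_abs]
    have h6 : |u| * |u| ≤ 1 * |u| := mul_le_mul_of_nonneg_right (hu.trans hr) (abs_nonneg u)
    have h7 := abs_nonneg u
    rw [abs_le]
    constructor <;> linarith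
  unfold Pool.Agent.VQE.nm kM
  simp only [Matrix.of_apply, Matrix.cons_val', Matrix.cons_val_zero, Matrix.cons_val_one, Matrix.cons_val_fin_one]
  rw [abs_neg]
  exact max_le (max_le (h2.trans hu) (h1.trans hu)) (max_le (h1.trans hu) (h2.trans hu))

theorem LIB_R0 (A : Prm) (hA : Adm 10 A) (k m M : ℝ) (hk : 0 < k) (hm' : 0 < m) : ∃ R0 : ℝ, 1 ≤ R0 ∧ ∀ R : ℝ, R0 ≤ R →
    M ≤ A.tu R ∧ 2 * R ^ (-(1 / 4) : ℝ) ≤ k ∧ 0 ≤ r2 A R ∧ r2 A R ≤ m := by
  have he3 := hA.e3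
  have hm : (1 : ℝ) ≤ A.m := by exact_mod_cast hA.m
  have hz := hA.z
  have hz1 := hA.z1
  have hz2 := hA.z2
  have hup := hA.up
  have a0 : 0 ≤ A.z := by linarith
  have a1 : 0 ≤ A.z1 := by linarith
  have a2 : 0 ≤ A.z2 := by linarith
  have a3 : A.z2 ≤ 1 / 10 := by nlinarith
  have hme : 0 < (A.m : ℝ) * A.e3 := by positivity
  have t1 : Tendsto (fun R : ℝ => (A.m : ℝ) * A.e3 * Real.log R) atTop atTop := Real.tendsto_log_atTop.const_mul_atTop hme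
  have t2 : Tendsto (fun R : ℝ => R ^ (-(1 / 4) : ℝ)) atTop (𝓝 0) := tendsto_rpow_neg_atTop (by norm_num)
  have t3 : Tendsto (fun R : ℝ => R ^ (-(3 / 10) : ℝ)) atTop (𝓝 0) := tendsto_rpow_neg_atTop (by norm_num)
  have e1 := t1.eventually_ge_atTop M
  have e2 := t2.eventually_le_const (show (0 : ℝ) < k / 2 by linarith)
  have e3 := t3.eventually_le_const hm'
  obtain ⟨R0, hR0⟩ := eventually_atTop.1 (e1.and (e2.and e3))
  refine ⟨max 1 R0, le_max_left _ _, fun R hR => ?_⟩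
  obtain ⟨h1, h2, h3⟩ := hR0 R ((le_max_right _ _).trans hR)
  have hR1 : (1 : ℝ) ≤ R := (le_max_left _ _).trans hR
  refine ⟨?_, by linarith, ?_, ?_⟩
  · unfold Prm.tu Prm.sg
    linarith
  · unfold r2
    positivity
  · unfold r2
    exact (Real.rpow_le_rpow_of_exponent_le hR1 (by linarith)).trans h3

theorem LIB_exp {C τ s : ℝ} (hC : 1 ≤ C) (hτ : 12 * C ^ 2 + 2 ≤ τ) (hs : |s| ≤ 1) :
    Real.exp (τ / (6 * C ^ 2)) ≤ 1 / 2 * (Real.exp ((τ + s) / (3 * C ^ 2)) * (1 / 2)) := by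
  have hC2 : 0 < C ^ 2 := by positivity
  have h1 : Real.exp ((τ + s) / (3 * C ^ 2)) = Real.exp (τ / (6 * C ^ 2)) * Real.exp ((τ + 2 * s) / (6 * C ^ 2)) := by
    rw [← Real.exp_add]
    congr 1
    field_simp
    ring
  have h2 : 2 ≤ (τ + 2 * s) / (6 * C ^ 2) := by
    rw [le_div_iff₀ (by positivity)]
    have := (abs_le.1 hs).1
    linarith
  have h3 : (4 : ℝ) ≤ Real.exp ((τ + 2 * s) / (6 * C ^ 2)) := by
    have h4 : Real.exp 1 * Real.exp 1 = Real.exp 2 := by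
      rw [← Real.exp_add]
      norm_num
    have h5 : (2 : ℝ) ≤ Real.exp 1 := by
      have := Real.add_one_le_exp (1 : ℝ)
      linarith
    have h6 : Real.exp 2 ≤ Real.exp ((τ + 2 * s) / (6 * C ^ 2)) := Real.exp_le_exp.2 h2
    nlinarith
  have h4 : 0 < Real.exp (τ / (6 * C ^ 2)) := Real.exp_pos _
  rw [h1]
  nlinarith

theorem LIB_curve (hLGF : LGF_stmt) (hLJT : LJT_stmt) {k C F : ℝ} {D : Dyn} (hD : FK k C D) (hF : FM C ≤ F)
    {E E' : ℝ} {γ : ℝ → SL(2, ℝ)} {x b c ℓ : ℝ → ℝ} (hE : |E| ≤ k) (hE' : |E'| ≤ k) (hEE : |E' - E| ≤ 1 / F ^ 3) (hF0 : 0 < F)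
    (hγ : RN C F 1 D E γ x b c ℓ) {τ s : ℝ} (hτ : 12 * C ^ 2 + 2 ≤ τ) (hs : |s| ≤ 1)
    {y1 y2 : SL(2, ℝ)} (hy1 : nm y1 ≤ 1 / F ^ 3) (hy2 : nm y2 ≤ 1 / F ^ 3) (h : SL(2, ℝ)) (hh : h = 1 ∨ h = ngM) :
    ∃ x' b' c' ℓ' : ℝ → ℝ, RN C F 1 D E' (fun u => h * (D.fl E (τ + s) (γ u * y1) * y2)) x' b' c' ℓ' ∧
      ∀ v v' : ℝ, v ≤ v' → Real.exp (τ / (6 * C ^ 2)) * (ℓ v' - ℓ v) ≤ ℓ' v' - ℓ' v := by
  have hC := hD.c1
  have hC2 : (1 : ℝ) ≤ C ^ 2 := one_le_pow₀ hC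
  have hs1 := (abs_le.1 hs).1
  have hF3 : (0 : ℝ) ≤ 1 / F ^ 3 := by positivity
  obtain ⟨j1, -, j3, -⟩ := hLJT k C F D hD hF E hE
  obtain ⟨-, j2, -, -⟩ := hLJT k C F D hD hF E' hE'
  obtain ⟨x1, b1, c1, l1, g1, g1'⟩ := j1 1 E γ x b c ℓ y1 (Or.inr rfl) hE (by rw [sub_self, abs_zero]; exact hF3) hγ hy1
  rw [mul_one] at g1
  obtain ⟨X, Y, Z, L, -, -, -, hL0, hLg, -, hG⟩ := hLGF k C F D hD hF E _ x1 b1 c1 l1 hE g1
  obtain ⟨x3, b3, c3, l3, g3, g3'⟩ := j1 (1 / 2) E' _ _ _ _ _ y2 (Or.inl rfl) hE' hEE (hG (τ + s) (by linarith)) hy2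
  have e1 : (2 : ℝ) * (1 / 2) = 1 := by norm_num
  rw [e1] at g3
  refine ⟨x3, b3, c3, l3, ?_, fun v v' hv => ?_⟩
  · rcases hh with rfl | rfl
    · simp only [one_mul]
      exact g3
    · exact j2 1 _ x3 b3 c3 l3 g3
  · have a1 := (g1' v v' hv).1
    have a2 := (hLg 0 (τ + s) v v' le_rfl (by linarith) hv).1
    have a3 := (g3' v v' hv).1
    rw [hL0, sub_zero] at a2
    have hn : 0 ≤ ℓ v' - ℓ v := by
      have := (g1' v v' hv).2
      linarith
    have he := LIB_exp hC hτ hs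
    have hp : 0 < Real.exp ((τ + s) / (3 * C ^ 2)) := Real.exp_pos _
    calc Real.exp (τ / (6 * C ^ 2)) * (ℓ v' - ℓ v) ≤ 1 / 2 * (Real.exp ((τ + s) / (3 * C ^ 2)) * (1 / 2)) * (ℓ v' - ℓ v) :=
          mul_le_mul_of_nonneg_right he hn
      _ = 1 / 2 * (Real.exp ((τ + s) / (3 * C ^ 2)) * (1 / 2 * (ℓ v' - ℓ v))) := by ring
      _ ≤ 1 / 2 * (Real.exp ((τ + s) / (3 * C ^ 2)) * (l1 v' - l1 v)) := by gcongr
      _ ≤ 1 / 2 * (L (τ + s) v' - L (τ + s) v) := by gcongr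
      _ ≤ l3 v' - l3 v := a3

theorem LIB_cont {γ : ℝ → SL(2, ℝ)} {x b c : ℝ → ℝ} (h : Cv γ x b c) : Continuous γ := by
  refine continuous_induced_rng.2 (continuous_matrix fun i j => ?_)
  exact continuous_iff_continuousAt.2 fun v => (h.der v i j).continuousAt

theorem LIB_vol {r : ℝ} (hr : 0 ≤ r) : volume (bx r) = ENNReal.ofReal (16 * r ^ 4) := by
  unfold bx
  rw [Measure.volume_eq_prod, Measure.prod_prod, Measure.volume_eq_prod, Measure.prod_prod, Measure.volume_eq_prod,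
    Measure.prod_prod, Real.volume_Icc, ← ENNReal.ofReal_mul (by linarith), ← ENNReal.ofReal_mul (by linarith),
    ← ENNReal.ofReal_mul (by linarith)]
  congr 1
  ring

theorem LIB_ton (D : Dyn) (τ r : ℝ) (hr : 0 ≤ r)
    (hPhi : Measurable fun q : (SL(2, ℝ) × ℝ) × (ℝ × ℝ × ℝ × ℝ) => PhiN D τ q.1 q.2)
    (W : SL(2, ℝ) × ℝ → ℝ≥0∞) (hWm : Measurable W) (E : ℝ) (γ : ℝ → SL(2, ℝ)) (hγc : Continuous γ) (v v' : ℝ) (K : ℝ≥0∞)
    (hin : ∀ u1 x1 s1 ε : ℝ, |u1| ≤ r → |x1| ≤ r → |s1| ≤ r → |ε| ≤ r → ∀ h : SL(2, ℝ), h = 1 ∨ h = ngM →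
      ∫⁻ u in Icc v v', W (h * (D.fl E (τ + x1) (γ u * kM u1) * kM s1), E + ε) ≤ K) :
    ∫⁻ u in Icc v v', (∫⁻ o in bx r, W (PhiN D τ (γ u, E) o) + W (ngM * (PhiN D τ (γ u, E) o).1, (PhiN D τ (γ u, E) o).2)) ≤
      2 * K * ENNReal.ofReal (16 * r ^ 4) := by
  have hng : Measurable (fun q : SL(2, ℝ) × ℝ => (ngM * q.1, q.2)) :=
    ((continuous_const.mul continuous_id).measurable.comp measurable_fst).prodMk measurable_snd
  have hjoint : Measurable (fun q : ℝ × (ℝ × ℝ × ℝ × ℝ) => PhiN D τ (γ q.1, E) q.2) := by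
    have h1 : Measurable (fun q : ℝ × (ℝ × ℝ × ℝ × ℝ) => (((γ q.1, E), q.2) : (SL(2, ℝ) × ℝ) × (ℝ × ℝ × ℝ × ℝ))) :=
      ((hγc.measurable.comp measurable_fst).prodMk measurable_const).prodMk measurable_snd
    have h2 := hPhi.comp h1
    exact h2
  have hf : Measurable (fun q : ℝ × (ℝ × ℝ × ℝ × ℝ) => W (PhiN D τ (γ q.1, E) q.2) +
      W (ngM * (PhiN D τ (γ q.1, E) q.2).1, (PhiN D τ (γ q.1, E) q.2).2)) :=
    (hWm.comp hjoint).add (hWm.comp (hng.comp hjoint))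
  have hinner : ∀ o ∈ bx r, ∫⁻ u in Icc v v', (W (PhiN D τ (γ u, E) o) +
      W (ngM * (PhiN D τ (γ u, E) o).1, (PhiN D τ (γ u, E) o).2)) ≤ 2 * K := by
    intro o ho
    have hu1 : |o.1| ≤ r := abs_le.2 ho.1
    have hx1 : |o.2.1| ≤ r := abs_le.2 ho.2.1
    have hs1 : |o.2.2.1| ≤ r := abs_le.2 ho.2.2.1
    have hε : |o.2.2.2| ≤ r := abs_le.2 ho.2.2.2
    have hcur := hin o.1 o.2.1 o.2.2.1 o.2.2.2 hu1 hx1 hs1 hε
    have hpt : ∀ u : ℝ, PhiN D τ (γ u, E) o = (1 * (D.fl E (τ + o.2.1) (γ u * kM o.1) * kM o.2.2.1), E + o.2.2.2) := by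
      intro u
      unfold PhiN
      rw [one_mul]
    have hpt' : ∀ u : ℝ, (ngM * (PhiN D τ (γ u, E) o).1, (PhiN D τ (γ u, E) o).2) =
        (ngM * (D.fl E (τ + o.2.1) (γ u * kM o.1) * kM o.2.2.1), E + o.2.2.2) := by
      intro u
      rw [hpt u, one_mul]
    have hm1 : Measurable (fun u : ℝ => W (PhiN D τ (γ u, E) o)) := by
      have h0 : Measurable (fun u : ℝ => ((u, o) : ℝ × (ℝ × ℝ × ℝ × ℝ))) := measurable_id.prodMk measurable_const
      have h1 := hjoint.comp h0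
      have h2 := hWm.comp h1
      exact h2
    rw [lintegral_add_left hm1, two_mul]
    refine add_le_add ?_ ?_
    · simp only [hpt]
      exact hcur 1 (Or.inl rfl)
    · simp only [hpt']
      exact hcur ngM (Or.inr rfl)
  rw [lintegral_lintegral_swap hf.aemeasurable]
  have hbm : MeasurableSet (bx r) :=
    measurableSet_Icc.prod (measurableSet_Icc.prod (measurableSet_Icc.prod measurableSet_Icc))
  calc ∫⁻ o in bx r, (∫⁻ u in Icc v v', (W (PhiN D τ (γ u, E) o) +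
        W (ngM * (PhiN D τ (γ u, E) o).1, (PhiN D τ (γ u, E) o).2)))
      ≤ ∫⁻ _ in bx r, 2 * K := setLIntegral_mono' hbm hinner
    _ = 2 * K * ENNReal.ofReal (16 * r ^ 4) := by
        rw [setLIntegral_const, LIB_vol hr]

theorem LIB_proof (hLGF : LGF_stmt) (hLJT : LJT_stmt) : LIB_stmt := by
  intro k C F hk hC hF A hA
  have hF1 : 1 ≤ F := by
    have h1 : (1 : ℝ) ≤ Real.exp (40 * C) := Real.one_le_exp (by linarith)
    have h2 : (1 : ℝ) ≤ (10 * C) ^ 40 := one_le_pow₀ (by linarith)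
    have h3 : (1 : ℝ) ≤ FM C := by
      unfold FM
      nlinarith
    linarith
  have hF0 : 0 < F := by linarith
  have hF3 : (0 : ℝ) < 1 / F ^ 3 := by positivity
  have hF31 : 1 / F ^ 3 ≤ 1 := by
    rw [div_le_one (by positivity)]
    exact one_le_pow₀ hF1
  obtain ⟨R0, hR01, hR0⟩ := LIB_R0 A hA k (1 / F ^ 3) (12 * C ^ 2 + 2) hk hF3
  refine ⟨R0, hR01, fun R D V θ l0 hR hD hPhi hPV hV hθ hl0 H => ?_⟩
  obtain ⟨hτ, hE4, hr0, hr1⟩ := hR0 R hR
  have hmeas : ∀ n : ℕ, Measurable ((PVN D A R)^[n] V) := by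
    intro n
    induction n with
    | zero => exact hV
    | succ n ih =>
      rw [Function.iterate_succ_apply']
      exact hPV _ ih
  intro n
  induction n with
  | zero =>
    intro E γ x b c ℓ v v' hE hγ hv hl
    have h1 : |E| ≤ 2 * R ^ (-(1 / 4) : ℝ) := by
      simpa using hE
    have h2 : l0 ≤ ℓ v' - ℓ v := by
      simpa using hl
    have h3 := H E γ x b c ℓ v v' h1 ((hLJT k C F D hD hF E (h1.trans hE4)).2.2.1 1 2 γ x b c ℓ one_pos one_le_two hγ) hv h2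
    simpa using h3
  | succ n ih =>
    intro E γ x b c ℓ v v' hE hγ hv hl
    have hWm := hmeas n
    rw [Function.iterate_succ_apply']
    generalize (PVN D A R)^[n] V = W at ih hWm ⊢
    have hEd : |E| ≤ k := by
      have : (0 : ℝ) ≤ ((n + 1 : ℕ) : ℝ) * r2 A R := by positivity
      linarith
    have hγc : Continuous γ := LIB_cont hγ.toCN.toCv
    have key := LIB_ton D (A.tu R) (r2 A R) hr0 hPhi W hWm E γ hγc v v'
      (ENNReal.ofReal ((32 * r2 A R ^ 4) ^ n * θ * (v' - v))) (fun u1 x1 s1 ε hu1 hx1 hs1 hε h hh => by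
        have hy1 : nm (kM u1) ≤ 1 / F ^ 3 := (LIB_kM (hr1.trans hF31) hu1).trans hr1
        have hy2 : nm (kM s1) ≤ 1 / F ^ 3 := (LIB_kM (hr1.trans hF31) hs1).trans hr1
        have hE' : |E + ε| + n * r2 A R ≤ 2 * R ^ (-(1 / 4) : ℝ) := by
          have h1 : |E + ε| ≤ |E| + |ε| := abs_add_le _ _
          push_cast at hE
          linarith
        have hEk : |E + ε| ≤ k := by
          have : (0 : ℝ) ≤ (n : ℝ) * r2 A R := by positivity
          linarith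
        have hEE : |E + ε - E| ≤ 1 / F ^ 3 := by
          rw [add_sub_cancel_left]
          exact hε.trans hr1
        obtain ⟨x', b', c', l', g', gl⟩ := LIB_curve hLGF hLJT hD hF hEd hEk hEE hF0 hγ hτ (hx1.trans (hr1.trans hF31)) hy1 hy2 h hh
        refine ih (E + ε) _ x' b' c' l' v v' hE' g' hv ?_
        have h1 := gl v v' hv.le
        have h2 : Real.exp (((n + 1 : ℕ) : ℝ) * A.tu R / (6 * C ^ 2)) = Real.exp (n * A.tu R / (6 * C ^ 2)) * Real.exp (A.tu R / (6 * C ^ 2)) := by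
          rw [← Real.exp_add]
          congr 1
          push_cast
          ring
        rw [h2, mul_assoc] at hl
        exact hl.trans (mul_le_mul_of_nonneg_left h1 (Real.exp_pos _).le))
    refine (le_of_eq_of_le ?_ key).trans (le_of_eq ?_)
    · rfl
    · have h2 : (2 : ℝ≥0∞) = ENNReal.ofReal 2 := by simp
      have h3 : 0 ≤ v' - v := by linarith
      rw [h2, ← ENNReal.ofReal_mul (by norm_num), ← ENNReal.ofReal_mul (by positivity)]
      congr 1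
      ring

end Pool.Agent.VN
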