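import Pool.Agent.helper84.VN.Spec4n

/-! # Row vn:US4 (MP_07c750_an): the unit step with jumps and time shift -/

set_option autoImplicit false

open scoped MatrixGroups ContDiff Topology UpperHalfPlane ComplexConjugate ENNReal
open UpperHalfPlane MeasureTheory Filter Set

namespace Pool.Agent.VN

open Pool.Agent.RS Pool.Agent.VQ
open Pool.Agent.VQE (nm)

theorem US4_bd (l : List ℝ) : ∃ K : ℝ, 1 ≤ K ∧ ∀ x ∈ l, x ≤ K := by
  induction l with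
  | nil => exact ⟨1, le_rfl, fun x hx => by simp at hx⟩
  | cons a l ih =>
    obtain ⟨K, hK1, hK⟩ := ih
    refine ⟨max a K, hK1.trans (le_max_right _ _), fun x hx => ?_⟩
    rcases List.mem_cons.1 hx with rfl | h
    · exact le_max_left _ _
    · exact (hK x h).trans (le_max_right _ _)

theorem US4_prod (J W J' W' δ P : ℝ) (hJ : |J - J'| ≤ δ) (hW : |W - W'| ≤ δ) (hP : |J'| + |W'| ≤ P) :
    J' * W' - δ * (P + δ) ≤ J * W := by
  have hδ : 0 ≤ δ := (abs_nonneg _).trans hJ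
  have h1 : |(J - J') * W'| ≤ δ * |W'| := by rw [abs_mul]; exact mul_le_mul_of_nonneg_right hJ (abs_nonneg _)
  have h2 : |J' * (W - W')| ≤ |J'| * δ := by rw [abs_mul]; exact mul_le_mul_of_nonneg_left hW (abs_nonneg _)
  have h3 : |(J - J') * (W - W')| ≤ δ * δ := by rw [abs_mul]; exact mul_le_mul hJ hW (abs_nonneg _) hδ
  have h4 : δ * (|J'| + |W'|) ≤ δ * P := mul_le_mul_of_nonneg_left hP hδ
  have h5 := (abs_le.1 h1).1
  have h6 := (abs_le.1 h2).1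
  have h7 := (abs_le.1 h3).1
  have h8 : J * W = J' * W' + (J - J') * W' + J' * (W - W') + (J - J') * (W - W') := by ring
  rw [h8]
  linarith

/-- the size of `J, W` after the step -/
theorem US4_size (K2 K4 c K N0 ε M J W J' W' δ : ℝ) (hK2 : 1 ≤ K2) (hK4 : 1 ≤ K4) (hc : 0 ≤ c)
    (hN0 : 0 ≤ N0) (hε : 0 ≤ ε) (hM : M = N0 + ε) (hKM : K * M ≤ 1) (hK1 : 1 ≤ K) (hδ : δ = 8 * K2 * ε + c * M ^ 2)
    (hJ : |J - J'| ≤ δ) (hW : |W - W'| ≤ δ) (h1 : |J'| + |W'| ≤ K4 * M) (h2 : N0 ≤ K4 * (|J'| + |W'| + ε))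
    (k1 : K4 + 16 * K2 + 2 * c ≤ K) (k2 : 4 * c * K4 ≤ K) (k3 : 32 * K2 * K4 + 2 * K4 + 1 ≤ K) :
    |J| + |W| ≤ K * M ∧ N0 ≤ K * (|J| + |W| + ε) := by
  have hM0 : 0 ≤ M := by rw [hM]; linarith
  have hM1 : M ≤ 1 := by
    have : 1 * M ≤ K * M := mul_le_mul_of_nonneg_right hK1 hM0
    linarith
  have hM2 : M ^ 2 ≤ M := by nlinarith
  have hεM : ε ≤ M := by rw [hM]; linarith
  have hcM : c * M ^ 2 ≤ c * M := mul_le_mul_of_nonneg_left hM2 hc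
  have hKε : K2 * ε ≤ K2 * M := mul_le_mul_of_nonneg_left hεM (by linarith)
  have a1 : |J| ≤ |J'| + δ := by
    have := abs_sub_abs_le_abs_sub J J'
    linarith
  have a2 : |W| ≤ |W'| + δ := by
    have := abs_sub_abs_le_abs_sub W W'
    linarith
  have a3 : |J'| ≤ |J| + δ := by
    have := abs_sub_abs_le_abs_sub J' J
    rw [abs_sub_comm] at this
    linarith
  have a4 : |W'| ≤ |W| + δ := by
    have := abs_sub_abs_le_abs_sub W' W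
    rw [abs_sub_comm] at this
    linarith
  have b1 : (K4 + 16 * K2 + 2 * c) * M ≤ K * M := mul_le_mul_of_nonneg_right k1 hM0
  refine ⟨by nlinarith, ?_⟩
  have c1 : 4 * c * K4 * M ≤ 1 := (mul_le_mul_of_nonneg_right k2 hM0).trans hKM
  have c2 : 4 * c * K4 * M * M ≤ 1 * M := mul_le_mul_of_nonneg_right c1 hM0
  have c3 : K4 * (|J'| + |W'| + ε) ≤ K4 * (|J| + |W| + (2 * δ + ε)) := mul_le_mul_of_nonneg_left (by linarith) (by linarith)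
  have c4 : K4 * (|J| + |W| + (2 * δ + ε)) = K4 * (|J| + |W|) + 16 * K2 * K4 * ε + 4 * c * K4 * M * M / 2 + K4 * ε := by
    rw [hδ]; ring
  have hs : 0 ≤ |J| + |W| := by positivity
  have c5 : 2 * K4 * (|J| + |W|) ≤ K * (|J| + |W|) := by
    apply mul_le_mul_of_nonneg_right _ hs
    have : 0 ≤ 32 * K2 * K4 := by positivity
    linarith
  have c6 : (32 * K2 * K4 + 2 * K4 + 1) * ε ≤ K * ε := mul_le_mul_of_nonneg_right k3 hε
  rw [hM] at c2 c4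
  have c7 : N0 ≤ 2 * K4 * (|J| + |W|) + (32 * K2 * K4 + 2 * K4 + 1) * ε := by
    rw [c4] at c3
    have c8 := h2.trans c3
    linarith
  calc N0 ≤ 2 * K4 * (|J| + |W|) + (32 * K2 * K4 + 2 * K4 + 1) * ε := c7
    _ ≤ K * (|J| + |W|) + K * ε := by linarith
    _ = K * (|J| + |W| + ε) := by ring

/-- the increase of `Q` -/
theorem US4_Q (K2 K4 c e K N0 ε M J0 W0 J W J' W' δ : ℝ) (hK2 : 1 ≤ K2) (hK4 : 1 ≤ K4) (hc : 0 ≤ c)
    (hN0 : 0 ≤ N0) (hε : 0 ≤ ε) (hM : M = N0 + ε) (hKM : K * M ≤ 1) (hK1 : 1 ≤ K) (hδ : δ = 8 * K2 * ε + c * M ^ 2)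
    (he : e = K4 + 8 * K2 + c)
    (hJ : |J - J'| ≤ δ) (hW : |W - W'| ≤ δ) (h1 : |J'| + |W'| ≤ K4 * M)
    (h2 : J0 * W0 + N0 ^ 2 / K4 - K4 * (ε * N0 + ε ^ 2) ≤ J' * W')
    (k1 : 2 * c * e * K4 ≤ K) (k2 : 2 * K4 ≤ K) (k3 : K4 + 8 * K2 * e + 1 ≤ K) :
    J0 * W0 + N0 ^ 2 / K - K * (ε * N0 + ε ^ 2) ≤ J * W := by
  have hM0 : 0 ≤ M := by rw [hM]; linarith
  have hM1 : M ≤ 1 := by
    have : 1 * M ≤ K * M := mul_le_mul_of_nonneg_right hK1 hM0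
    linarith
  have hM2 : M ^ 2 ≤ M := by nlinarith
  have hεM : ε ≤ M := by rw [hM]; linarith
  have hcM : c * M ^ 2 ≤ c * M := mul_le_mul_of_nonneg_left hM2 hc
  have hKε : K2 * ε ≤ K2 * M := mul_le_mul_of_nonneg_left hεM (by linarith)
  have hδ0 : 0 ≤ δ := by rw [hδ]; positivity
  have hδM : δ ≤ (8 * K2 + c) * M := by rw [hδ]; nlinarith
  have he0 : 0 ≤ e := by rw [he]; linarith
  have p1 := US4_prod J W J' W' δ (K4 * M) hJ hW h1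
  have p2 : δ * (K4 * M + δ) ≤ δ * (e * M) := by
    apply mul_le_mul_of_nonneg_left _ hδ0
    rw [he]
    linarith
  have p3 : δ * (e * M) = 8 * K2 * e * (ε * N0 + ε ^ 2) + c * e * M * M ^ 2 := by
    rw [hδ, hM]
    ring
  obtain ⟨q, hq⟩ : ∃ q : ℝ, q = 1 / (2 * K4) := ⟨_, rfl⟩
  have hq0 : 0 < q := by rw [hq]; positivity
  have hq1 : q ≤ 1 / 2 := by
    rw [hq]
    apply one_div_le_one_div_of_le (by norm_num)
    linarith
  have hqK : q * (2 * K4) = 1 := by rw [hq]; field_simp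
  have q1 : N0 ^ 2 / K4 = 2 * q * N0 ^ 2 := by
    rw [hq]
    field_simp
  have q2 : N0 ^ 2 / K ≤ q * N0 ^ 2 := by
    rw [hq, div_le_iff₀ (by linarith)]
    have : 1 ≤ 1 / (2 * K4) * K := by
      rw [div_mul_eq_mul_div, one_mul, le_div_iff₀ (by positivity)]
      linarith
    have hn : 0 ≤ N0 ^ 2 := by positivity
    nlinarith
  have q3 : c * e * M ≤ q := by
    have h3 : 2 * c * e * K4 * M ≤ 1 := (mul_le_mul_of_nonneg_right k1 hM0).trans hKM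
    have h4 : q * (2 * c * e * K4 * M) ≤ q * 1 := mul_le_mul_of_nonneg_left h3 hq0.le
    have h5 : q * (2 * c * e * K4 * M) = (q * (2 * K4)) * (c * e * M) := by ring
    rw [h5, hqK] at h4
    linarith
  have q4 : c * e * M * M ^ 2 ≤ q * M ^ 2 := mul_le_mul_of_nonneg_right q3 (by positivity)
  have q5 : q * M ^ 2 ≤ q * N0 ^ 2 + (ε * N0 + ε ^ 2) := by
    rw [hM]
    have h6 : 0 ≤ ε * N0 := by positivity
    have h7 : 0 ≤ ε ^ 2 := by positivity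
    have h8 : q * (ε * N0) ≤ 1 / 2 * (ε * N0) := mul_le_mul_of_nonneg_right hq1 h6
    have h9 : q * ε ^ 2 ≤ 1 / 2 * ε ^ 2 := mul_le_mul_of_nonneg_right hq1 h7
    nlinarith
  have q6 : (K4 + 8 * K2 * e + 1) * (ε * N0 + ε ^ 2) ≤ K * (ε * N0 + ε ^ 2) :=
    mul_le_mul_of_nonneg_right k3 (by positivity)
  rw [q1] at h2
  rw [p3] at p2
  nlinarith

/-- the signs -/
theorem US4_sign (K2 K5 c d K N0 ε M J0 W0 J W J' W' δ σ : ℝ) (hK2 : 1 ≤ K2) (hK5 : 1 ≤ K5) (hc : 0 ≤ c)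
    (hN0 : 0 ≤ N0) (hε : 0 ≤ ε) (hM : M = N0 + ε) (hKM : K * M ≤ 1) (hK1 : 1 ≤ K) (hδ : δ = 8 * K2 * ε + c * M ^ 2)
    (hd : d = 8 * K2 + 3 * c) (hJ : |J - J'| ≤ δ) (hW : |W - W'| ≤ δ) (hσ : σ = 1 ∨ σ = -1) (hs : N0 = |J0| + |W0|)
    (s1 : 0 ≤ σ * J0) (s2 : 0 ≤ σ * W0) (hKε : K * ε ≤ N0)
    (u1 : σ * (J0 + W0) / K5 - K5 * (N0 ^ 2 + ε) ≤ σ * J') (u2 : σ * (J0 + W0) / K5 - K5 * (N0 ^ 2 + ε) ≤ σ * W')
    (u3 : (1 + 1 / K5) * (σ * (J0 + W0)) - K5 * (N0 ^ 2 + ε) ≤ σ * (J' + W'))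
    (k1 : 4 * K5 * (K5 + 2 * d) ≤ K) (k2 : 2 * K5 ≤ K) :
    0 ≤ σ * J ∧ 0 ≤ σ * W ∧ N0 / K ≤ σ * J ∧ (1 + 1 / K) * N0 ≤ |J| + |W| := by
  have hM0 : 0 ≤ M := by rw [hM]; linarith
  have hM1 : M ≤ 1 := by
    have : 1 * M ≤ K * M := mul_le_mul_of_nonneg_right hK1 hM0
    linarith
  have hN1 : N0 ≤ 1 := by rw [hM] at hM1; linarith
  have hε1 : ε ≤ 1 := by rw [hM] at hM1; linarith
  have hd0 : 0 ≤ d := by rw [hd]; linarith
  have hN : σ * (J0 + W0) = N0 := by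
    rw [hs]
    rcases hσ with rfl | rfl
    · rw [abs_of_nonneg (by linarith : 0 ≤ J0), abs_of_nonneg (by linarith : 0 ≤ W0)]
      ring
    · rw [abs_of_nonpos (by linarith : J0 ≤ 0), abs_of_nonpos (by linarith : W0 ≤ 0)]
      ring
  rw [hN] at u1 u2 u3
  have hσa : ∀ a b : ℝ, |a - b| ≤ δ → σ * b - δ ≤ σ * a := by
    intro a b hab
    have h := abs_le.1 hab
    rcases hσ with rfl | rfl
    · linarith [h.1]
    · linarith [h.2]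
  have hδd : δ ≤ d * (N0 ^ 2 + ε) := by
    have h1 : M ^ 2 ≤ N0 ^ 2 + 3 * ε := by
      rw [hM]
      have h2 : N0 * ε ≤ 1 * ε := mul_le_mul_of_nonneg_right hN1 hε
      have h3 : ε * ε ≤ 1 * ε := mul_le_mul_of_nonneg_right hε1 hε
      nlinarith
    have h4 : c * M ^ 2 ≤ c * (N0 ^ 2 + 3 * ε) := mul_le_mul_of_nonneg_left h1 hc
    have h5 : 0 ≤ N0 ^ 2 := by positivity
    have h6 : 0 ≤ c * N0 ^ 2 := by positivity
    have h7 : 0 ≤ K2 * N0 ^ 2 := by positivity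
    rw [hδ, hd]
    nlinarith
  -- the small terms
  obtain ⟨q, hq⟩ : ∃ q : ℝ, q = 1 / (2 * K5) := ⟨_, rfl⟩
  have hq0 : 0 < q := by rw [hq]; positivity
  have hqK : q * (2 * K5) = 1 := by rw [hq]; field_simp
  have q1 : N0 / K5 = 2 * q * N0 := by
    rw [hq]
    field_simp
  have q1' : 1 / K5 = 2 * q := by
    rw [hq]
    field_simp
  have hKq : 1 / K ≤ q := by
    rw [hq]
    exact one_div_le_one_div_of_le (by positivity) k2
  have hN0K : K * N0 ≤ 1 := by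
    have : K * N0 ≤ K * M := mul_le_mul_of_nonneg_left (by rw [hM]; linarith) (by linarith)
    linarith
  have hsq : K * (N0 ^ 2 + ε) ≤ 2 * N0 := by
    have : (K * N0) * N0 ≤ 1 * N0 := mul_le_mul_of_nonneg_right hN0K hN0
    nlinarith
  have hX0 : 0 ≤ N0 ^ 2 + ε := by positivity
  have hbig : (K5 + 2 * d) * (N0 ^ 2 + ε) ≤ q * N0 := by
    have h1 : 4 * K5 * (K5 + 2 * d) * (N0 ^ 2 + ε) ≤ K * (N0 ^ 2 + ε) := mul_le_mul_of_nonneg_right k1 hX0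
    have h2 : q * (4 * K5 * (K5 + 2 * d) * (N0 ^ 2 + ε)) ≤ q * (2 * N0) := mul_le_mul_of_nonneg_left (h1.trans hsq) hq0.le
    have h3 : q * (4 * K5 * (K5 + 2 * d) * (N0 ^ 2 + ε)) = 2 * (q * (2 * K5)) * ((K5 + 2 * d) * (N0 ^ 2 + ε)) := by ring
    rw [h3, hqK] at h2
    linarith
  have hdX : 0 ≤ d * (N0 ^ 2 + ε) := mul_nonneg hd0 hX0
  have hqN : 0 ≤ q * N0 := by positivity
  have v1 := hσa J J' hJ
  have v2 := hσa W W' hW
  rw [q1] at u1 u2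
  rw [q1'] at u3
  have hexp : (K5 + 2 * d) * (N0 ^ 2 + ε) = K5 * (N0 ^ 2 + ε) + 2 * (d * (N0 ^ 2 + ε)) := by ring
  rw [hexp] at hbig
  have w1 : q * N0 ≤ σ * J := by linarith
  have w2 : q * N0 ≤ σ * W := by linarith
  have w3 : (1 + q) * N0 ≤ σ * J + σ * W := by
    have h1 : σ * (J' + W') = σ * J' + σ * W' := by ring
    rw [h1] at u3
    linarith
  have hKN : N0 / K ≤ q * N0 := by
    have h1 : 1 / K * N0 ≤ q * N0 := mul_le_mul_of_nonneg_right hKq hN0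
    rwa [div_mul_eq_mul_div, one_mul] at h1
  have hle : ∀ a : ℝ, σ * a ≤ |a| := by
    intro a
    rcases hσ with rfl | rfl
    · rw [one_mul]; exact le_abs_self a
    · rw [neg_one_mul]; exact neg_le_abs a
  refine ⟨by linarith, by linarith, by linarith, ?_⟩
  have h1 : (1 + 1 / K) * N0 ≤ (1 + q) * N0 := mul_le_mul_of_nonneg_right (by linarith) hN0
  linarith [hle J, hle W]

theorem US4_entries (x : SL(2, ℝ)) : |x.1 0 0 - 1| ≤ nm x ∧ |x.1 1 1 - 1| ≤ nm x :=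
  ⟨(le_max_left _ _).trans (le_max_left _ _), (le_max_right _ _).trans (le_max_right _ _)⟩

theorem US4_proof (hGN4 : GN4_stmt) (hCN4 : CN4_stmt) (hUR4 : UR4_stmt) (hUA4 : UA4_stmt) (hUB4 : UB4_stmt) : US4_stmt := by
  intro k C
  obtain ⟨K1, hK1, hGN⟩ := hGN4 k C
  obtain ⟨K2, hK2, hCN⟩ := hCN4 k C
  obtain ⟨K3, hK3, hUR⟩ := hUR4 k C
  obtain ⟨K4, hK4, hUA⟩ := hUA4 k C
  obtain ⟨K5, hK5, hUB⟩ := hUB4 k C
  obtain ⟨a, ha⟩ : ∃ a : ℝ, a = K2 * (K4 + 7) := ⟨_, rfl⟩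
  obtain ⟨b, hb⟩ : ∃ b : ℝ, b = 2 * K3 * a := ⟨_, rfl⟩
  obtain ⟨c, hc⟩ : ∃ c : ℝ, c = K2 * (b * (a + b + 3)) := ⟨_, rfl⟩
  obtain ⟨d, hd⟩ : ∃ d : ℝ, d = 8 * K2 + 3 * c := ⟨_, rfl⟩
  obtain ⟨e, he⟩ : ∃ e : ℝ, e = K4 + 8 * K2 + c := ⟨_, rfl⟩
  have ha0 : 0 ≤ a := by rw [ha]; positivity
  have hb0 : 0 ≤ b := by rw [hb]; positivity
  have hc0 : 0 ≤ c := by rw [hc]; positivity
  obtain ⟨K, hK, hKl⟩ := US4_bd [K1, K4, K5, K2, K2 * K4, 6 * K2, a * K3, a * K2, b * K2, b, K2 * (a + b), K4 + 16 * K2 + 2 * c, 4 * c * K4,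
    32 * K2 * K4 + 2 * K4 + 1, 2 * c * e * K4, 2 * K4, K4 + 8 * K2 * e + 1, 4 * K5 * (K5 + 2 * d), 2 * K5]
  have l1 : K1 ≤ K := hKl _ (by simp)
  have l2 : K4 ≤ K := hKl _ (by simp)
  have l3 : K5 ≤ K := hKl _ (by simp)
  have l4 : K2 ≤ K := hKl _ (by simp)
  have l5 : K2 * K4 ≤ K := hKl _ (by simp)
  have l6 : 6 * K2 ≤ K := hKl _ (by simp)
  have l7 : a * K3 ≤ K := hKl _ (by simp)
  have l8 : a * K2 ≤ K := hKl _ (by simp)
  have l9 : b * K2 ≤ K := hKl _ (by simp)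
  have l10 : b ≤ K := hKl _ (by simp)
  have l11 : K2 * (a + b) ≤ K := hKl _ (by simp)
  have l12 : K4 + 16 * K2 + 2 * c ≤ K := hKl _ (by simp)
  have l13 : 4 * c * K4 ≤ K := hKl _ (by simp)
  have l14 : 32 * K2 * K4 + 2 * K4 + 1 ≤ K := hKl _ (by simp)
  have l15 : 2 * c * e * K4 ≤ K := hKl _ (by simp)
  have l16 : 2 * K4 ≤ K := hKl _ (by simp)
  have l17 : K4 + 8 * K2 * e + 1 ≤ K := hKl _ (by simp)
  have l18 : 4 * K5 * (K5 + 2 * d) ≤ K := hKl _ (by simp)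
  have l19 : 2 * K5 ≤ K := hKl _ (by simp)
  clear hKl
  refine ⟨K, hK, ?_⟩
  intro D hD t ε S E E' E1 E1' J0 W0 N0 g g' g1 g1' x ht1 ht2 hε hS hE hE' hE1 hE1' hEE hE1E hE1E' hj1 hj2 hx hxc hxp hxn hJ0 hW0 hN0 hKN
  have hN00 : 0 ≤ N0 := by rw [hN0]; unfold NX; positivity
  obtain ⟨M, hM⟩ : ∃ M : ℝ, M = N0 + ε := ⟨_, rfl⟩
  rw [← hM] at hKN
  have hM0 : 0 ≤ M := by rw [hM]; linarith
  have hεM : ε ≤ M := by rw [hM]; linarith
  -- multiples of `M` are small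
  have sm : ∀ p r : ℝ, 0 < r → p * r ≤ K → p * M ≤ 1 / r := by
    intro p r hr hpr
    rw [le_div_iff₀ hr]
    calc p * M * r = (p * r) * M := by ring
      _ ≤ K * M := mul_le_mul_of_nonneg_right hpr hM0
      _ ≤ 1 := hKN
  have sm1 : ∀ r : ℝ, 0 < r → r ≤ K → 1 / K ≤ 1 / r := fun r hr h => one_div_le_one_div_of_le hr h
  have hM1 : ∀ r : ℝ, 0 < r → r ≤ K → r * M ≤ 1 := fun r _ h => (mul_le_mul_of_nonneg_right h hM0).trans hKN
  -- the step without jumps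
  obtain ⟨y, hy⟩ : ∃ y, y = Xt D E E' g (D.fl E' S g') t := ⟨_, rfl⟩
  obtain ⟨J', hJ'⟩ : ∃ J', J' = JX D.U E (D.fl E t g) y := ⟨_, rfl⟩
  obtain ⟨W', hW'⟩ : ∃ W', W' = WX D.U E (D.fl E t g) y := ⟨_, rfl⟩
  obtain ⟨r1, r2, r3, r4⟩ := hUA D hD E E' t ε J0 W0 N0 J' W' g (D.fl E' S g') x y hE hE' hEE ht1 ht2 hx hy hxc hxp
    (hxn.trans (sm1 K4 (by linarith) l2)) hJ0 hW0 hN0 (by rw [← hM]; exact hM1 K4 (by linarith) l2) hJ' hW'
  rw [← hM] at r1 r3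
  -- the jumps
  obtain ⟨y1, hy1⟩ : ∃ y1, y1 = (D.fl E t g)⁻¹ * g1 := ⟨_, rfl⟩
  obtain ⟨y2, hy2⟩ : ∃ y2, y2 = (D.fl E' S (D.fl E' t g'))⁻¹ * D.fl E1' S g1' := ⟨_, rfl⟩
  obtain ⟨z0, hz0⟩ : ∃ z0, z0 = g1⁻¹ * D.fl E1' S g1' := ⟨_, rfl⟩
  rw [← hy1] at hj1
  have hy2n : nm y2 ≤ 6 * ε := by
    have h1 := hGN D hD E' E1' S ε (D.fl E' t g') g1' hE' hE1' hE1E'
    have h2 : Xt D E' E1' (D.fl E' t g') g1' S = y2 := by rw [hy2]; rfl
    rw [h2] at h1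
    have h3 : K1 * |S| ≤ 1 := by
      have h4 : K1 * |S| ≤ K * (1 / K) := mul_le_mul l1 hS (abs_nonneg _) (by linarith)
      rwa [mul_one_div_cancel (by linarith)] at h4
    have h5 : Real.exp (K1 * |S|) ≤ 3 := by
      have h6 : Real.exp (K1 * |S|) ≤ Real.exp 1 := Real.exp_le_exp.2 h3
      have h7 := Real.exp_one_lt_d9
      linarith
    have h8 : (nm ((D.fl E' t g')⁻¹ * g1') + ε) * Real.exp (K1 * |S|) ≤ (2 * ε) * 3 :=
      mul_le_mul (by linarith) h5 (Real.exp_pos _).le (by linarith)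
    linarith
  have hgy : D.fl E t g * y1 = g1 := by rw [hy1]; group
  have hz0' : y1⁻¹ * y * y2 = z0 := by
    have hcomm : D.fl E' t (D.fl E' S g') = D.fl E' S (D.fl E' t g') := by
      rw [← hD.add E' t S g' hE', ← hD.add E' S t g' hE', add_comm]
    rw [hy1, hy, hy2, hz0]
    unfold Xt
    rw [hcomm]
    group
  have hεK : ε ≤ 1 / K := by
    have := sm 1 K (by linarith) (by linarith)
    linarith
  have hyn : nm y ≤ 1 / K2 := r1.trans (sm K4 K2 (by linarith) (by linarith))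
  obtain ⟨j1, j2, j3⟩ := (hCN D hD).2.1 E E1 (D.fl E t g) y y1 y2 hE hE1 hyn (hj1.trans (hεK.trans (sm1 K2 (by linarith) l4)))
    (hy2n.trans (by
      have h1 := sm 6 K2 (by linarith) l6
      linarith))
  rw [hgy, hz0', ← hJ'] at j1
  rw [hgy, hz0', ← hW'] at j2
  rw [hz0'] at j3
  have hj8 : nm y1 + nm y2 + |E1 - E| ≤ 8 * ε := by linarith
  have hz0n : nm z0 ≤ a * M := by
    have h1 : K2 * (nm y + nm y1 + nm y2) ≤ K2 * ((K4 + 7) * M) := by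
      apply mul_le_mul_of_nonneg_left _ (by linarith)
      linarith
    rw [ha]
    linarith
  -- recentering
  obtain ⟨s, z, hz, hs, hzc, hzp⟩ := (hUR D hD E1' g1 (D.fl E1' S g1') z0 hE1' hz0 (hz0n.trans (sm a K3 (by linarith) l7))).1
  have hsM : |s| ≤ b * M := by
    obtain ⟨e1, e2⟩ := US4_entries z0
    have h1 : |z0.1 0 0 - z0.1 1 1| ≤ 2 * (a * M) := by
      have h3 := abs_le.1 e1
      have h4 := abs_le.1 e2
      rw [abs_le]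
      constructor <;> linarith [h3.1, h3.2, h4.1, h4.2]
    have h2 : K3 * |z0.1 0 0 - z0.1 1 1| ≤ K3 * (2 * (a * M)) := mul_le_mul_of_nonneg_left h1 (by linarith)
    rw [hb]
    linarith
  have hE3 : |E1' - E1| ≤ 3 * ε := by
    have h1 := abs_le.1 hEE
    have h2 := abs_le.1 hE1E
    have h3 := abs_le.1 hE1E'
    rw [abs_le]
    constructor <;> linarith [h1.1, h1.2, h2.1, h2.2, h3.1, h3.2]
  have hgz : g1 * z0 = D.fl E1' S g1' := by rw [hz0]; group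
  obtain ⟨t1, t2, t3⟩ := (hCN D hD).2.2 E1 E1' s g1 z0 z hE1 hE1' (hz0n.trans (sm a K2 (by linarith) l8))
    (hsM.trans (sm b K2 (by linarith) l9)) (by rw [hgz]; exact hz)
  have hcM : K2 * (|s| * (nm z0 + |s| + |E1' - E1|)) ≤ c * M ^ 2 := by
    have h1 : nm z0 + |s| + |E1' - E1| ≤ (a + b + 3) * M := by linarith
    have h0 : 0 ≤ nm z0 + |s| + |E1' - E1| := by
      have : 0 ≤ nm z0 := (abs_nonneg _).trans (US4_entries z0).1
      positivity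
    have h2 : |s| * (nm z0 + |s| + |E1' - E1|) ≤ (b * M) * ((a + b + 3) * M) := mul_le_mul hsM h1 h0 (by positivity)
    have h3 := mul_le_mul_of_nonneg_left h2 (show (0 : ℝ) ≤ K2 by linarith)
    refine h3.trans (le_of_eq ?_)
    rw [hc]
    ring
  obtain ⟨δ, hδ⟩ : ∃ δ : ℝ, δ = 8 * K2 * ε + c * M ^ 2 := ⟨_, rfl⟩
  have h8K : K2 * (nm y1 + nm y2 + |E1 - E|) ≤ 8 * K2 * ε := by
    have := mul_le_mul_of_nonneg_left hj8 (show (0 : ℝ) ≤ K2 by linarith)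
    linarith
  have dJ : |JX D.U E1 g1 z - J'| ≤ δ := by
    have h1 := abs_le.1 (t1.trans hcM)
    have h2 := abs_le.1 (j1.trans h8K)
    rw [abs_le, hδ]
    constructor <;> linarith [h1.1, h1.2, h2.1, h2.2]
  have dW : |WX D.U E1 g1 z - W'| ≤ δ := by
    have h1 := abs_le.1 (t2.trans hcM)
    have h2 := abs_le.1 (j2.trans h8K)
    rw [abs_le, hδ]
    constructor <;> linarith [h1.1, h1.2, h2.1, h2.2]
  obtain ⟨f1, f2⟩ := US4_size K2 K4 c K N0 ε M (JX D.U E1 g1 z) (WX D.U E1 g1 z) J' W' δ hK2 hK4 hc0 hN00 hε hM hKN hK hδ dJ dW r3 r2 l12 l13 l14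
  refine ⟨s + S, JX D.U E1 g1 z, WX D.U E1 g1 z, z, ?_, ?_, hzc, hzp, rfl, rfl, ?_, ?_, f2, ?_, ?_⟩
  · rw [hz, ← hD.add E1' s S g1' hE1']
  · rw [add_sub_cancel_right, ← hM]
    exact hsM.trans (mul_le_mul_of_nonneg_right l10 hM0)
  · rw [← hM]
    have h1 : K2 * (nm z0 + |s|) ≤ K2 * ((a + b) * M) := by
      apply mul_le_mul_of_nonneg_left _ (by linarith)
      linarith
    have h2 : K2 * (a + b) * M ≤ K * M := mul_le_mul_of_nonneg_right l11 hM0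
    linarith
  · rw [← hM]
    exact f1
  · exact US4_Q K2 K4 c e K N0 ε M J0 W0 (JX D.U E1 g1 z) (WX D.U E1 g1 z) J' W' δ hK2 hK4 hc0 hN00 hε hM hKN hK hδ he dJ dW r3 r4 l15 l16 l17
  · intro σ hσ s1 s2 hKε
    obtain ⟨u1, u2, u3⟩ := hUB D hD E E' t ε J0 W0 N0 J' W' σ g (D.fl E' S g') x y hE hE' hEE ht1 ht2 hσ hx hy hxc hxp
      (hxn.trans (sm1 K5 (by linarith) l3)) hJ0 hW0 hN0 (by rw [← hM]; exact hM1 K5 (by linarith) l3) hJ' hW' s1 s2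
    exact US4_sign K2 K5 c d K N0 ε M J0 W0 (JX D.U E1 g1 z) (WX D.U E1 g1 z) J' W' δ σ hK2 hK5 hc0 hN00 hε hM hKN hK hδ hd dJ dW hσ
      (by rw [hN0, hJ0, hW0]; rfl) s1 s2 hKε u1 u2 u3 l18 l19

end Pool.Agent.VN
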